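import Pool.Agent.Helper95.HV.Stmts
import Pool.Agent.Helper76.LN.FF

/-!
# Row FGZ: the derivative of the far field
-/

set_option autoImplicit false

namespace Pool.Agent.Helper22.HV

open MeasureTheory Filter Topology Pool.Agent.Helper95.PW Pool.Agent.Helper95.LN
open Pool.Agent.Helper95.HV Pool.Agent.Helper76.LN.FF76

theorem nr_sq22 (y : R3) : nr y ^ 2 = y 0 ^ 2 + y 1 ^ 2 + y 2 ^ 2 :=
  Real.sq_sqrt (by positivity)

/-- derivative of the euclidean length -/
theorem fgz_dnr (ξ : R3) (hξ : 0 < nr ξ) (a : Fin 3) :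
    HasFDerivAt nr ((nr ξ)⁻¹ • ((ξ 0) • (ContinuousLinearMap.proj 0 : R3 →L[ℝ] ℝ) +
      (ξ 1) • (ContinuousLinearMap.proj 1 : R3 →L[ℝ] ℝ) +
      (ξ 2) • (ContinuousLinearMap.proj 2 : R3 →L[ℝ] ℝ))) ξ := by
  have g2 : ∀ i : Fin 3, HasFDerivAt (fun y : R3 => y i ^ 2)
      ((2 * ξ i) • (ContinuousLinearMap.proj i : R3 →L[ℝ] ℝ)) ξ := by
    intro i
    have g3 := (hasFDerivAt_apply (𝕜 := ℝ) i ξ).pow 2
    simpa using g3
  have g4 := ((g2 0).add (g2 1)).add (g2 2)
  have h0 : ξ 0 ^ 2 + ξ 1 ^ 2 + ξ 2 ^ 2 ≠ 0 := by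
    rw [← nr_sq22]
    positivity
  have g5 := g4.sqrt h0
  have g6 : (1 / (2 * Real.sqrt (ξ 0 ^ 2 + ξ 1 ^ 2 + ξ 2 ^ 2))) •
      ((2 * ξ 0) • (ContinuousLinearMap.proj 0 : R3 →L[ℝ] ℝ) +
      (2 * ξ 1) • (ContinuousLinearMap.proj 1 : R3 →L[ℝ] ℝ) +
      (2 * ξ 2) • (ContinuousLinearMap.proj 2 : R3 →L[ℝ] ℝ)) =
      (nr ξ)⁻¹ • ((ξ 0) • (ContinuousLinearMap.proj 0 : R3 →L[ℝ] ℝ) +
      (ξ 1) • (ContinuousLinearMap.proj 1 : R3 →L[ℝ] ℝ) +
      (ξ 2) • (ContinuousLinearMap.proj 2 : R3 →L[ℝ] ℝ)) := by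
    have h1 : Real.sqrt (ξ 0 ^ 2 + ξ 1 ^ 2 + ξ 2 ^ 2) = nr ξ := rfl
    rw [h1]
    ext v
    simp
    field_simp
  rw [← g6]
  exact g5

/-- second derivatives of `ph` far from the origin -/
theorem fgz_ph2 (hPHB : ST_PHB) (b : ℝ) (hb : 0 < b) (ξ : R3) (hξ : b < nr ξ) (a m : Fin 3) :
    pd a (pd m (ph b)) ξ = 3 * ξ m * ξ a / nr ξ ^ 5 - (if a = m then 1 else 0) / nr ξ ^ 3 := by
  have h0 : 0 < nr ξ := hb.trans hξ
  have hev : pd m (ph b) =ᶠ[𝓝 ξ] fun y => -(y m * (nr y ^ 3)⁻¹) := by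
    filter_upwards [nr_cont.continuousAt.eventually (lt_mem_nhds hξ)] with y hy
    rw [(hPHB b hb).2.2.2 m y hy.le, div_eq_mul_inv]
  have hd := fgz_dnr ξ h0 a
  have h1 : HasDerivAt (fun r : ℝ => (r ^ 3)⁻¹) (-(3 * nr ξ ^ 2) / (nr ξ ^ 3) ^ 2) (nr ξ) := by
    have h2 : HasDerivAt (fun r : ℝ => r ^ 3) (3 * nr ξ ^ 2) (nr ξ) := by
      simpa using hasDerivAt_pow 3 (nr ξ)
    exact h2.fun_inv (by positivity)
  have h3 : HasFDerivAt (fun y : R3 => (nr y ^ 3)⁻¹) _ ξ := h1.comp_hasFDerivAt ξ hd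
  have hm : HasFDerivAt (fun y : R3 => y m) (ContinuousLinearMap.proj m : R3 →L[ℝ] ℝ) ξ :=
    hasFDerivAt_apply (𝕜 := ℝ) m ξ
  have h5 := (hm.mul h3).neg
  have h6 : HasFDerivAt (fun y : R3 => -(y m * (nr y ^ 3)⁻¹)) _ ξ := h5
  unfold pd at hev ⊢
  rw [hev.fderiv_eq, h6.fderiv]
  fin_cases a <;> fin_cases m <;> simp <;> field_simp <;> ring

/-- the quadratic form -/
theorem fgz_Tq (hPHB : ST_PHB) (b : ℝ) (hb : 0 < b) (ξ v w : R3) (hξ : b < nr ξ) :
    ∑ a, ∑ m, v a * w m * pd a (pd m (ph b)) ξ = Tq ξ v w := by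
  have h0 : 0 < nr ξ := hb.trans hξ
  simp only [fgz_ph2 hPHB b hb ξ hξ]
  unfold Tq
  simp only [Fin.sum_univ_three]
  simp
  field_simp
  ring

/-- the constant -/
noncomputable def fgz_I (d : ℝ) (a : Fin 3) : ℝ := ∫ p, |pd a (et (d / 2)) p|

theorem fgz_I_nonneg (d : ℝ) (a : Fin 3) : 0 ≤ fgz_I d a := integral_nonneg fun _ => abs_nonneg _

theorem fgz_cs (hPHC : ST_PHC) (r : ℝ) (hr : 0 < r) : HasCompactSupport (et r) := by
  refine HasCompactSupport.intro (isCompact_closedBall (0 : R3) r) fun y hy => ?_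
  rw [Metric.mem_closedBall, not_le, dist_eq_norm, sub_zero] at hy
  exact (hPHC.2.2.2 r hr).2.2.1 y (hy.le.trans (norm_le_nr y))

/-- gradient estimate -/
theorem fgz_grad (hMVP : ST_MVP) (hPHC : ST_PHC) (d e : ℝ) (hd : 0 < d) (h : R3 → ℝ)
    (hh : ContDiff ℝ (⊤ : ℕ∞) h) (y : R3) (a : Fin 3)
    (hharm : ∀ p, nr (p - y) ≤ d / 2 → lap (pd a h) p = 0)
    (hb : ∀ p, nr (p - y) ≤ d / 2 → |h p| ≤ e) :
    kap * |pd a h y| ≤ e * fgz_I d a := by
  have hr : 0 < d / 2 := by positivity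
  have hM := (hMVP (pd a h) y (d / 2) (pd_smooth a h hh) hr).1 hharm
  obtain ⟨es, e0, ez, -, -, -⟩ := hPHC.2.2.2 (d / 2) hr
  set g : R3 → ℝ := fun p => et (d / 2) (p - y) with hg
  have hgs : ContDiff ℝ (⊤ : ℕ∞) g := es.comp (contDiff_id.sub contDiff_const)
  have hgc : HasCompactSupport g :=
    (fgz_cs hPHC (d / 2) hr).comp_homeomorph (Homeomorph.subRight y)
  have hgd : ∀ p, fderiv ℝ g p (Pi.single a 1) = pd a (et (d / 2)) (p - y) := by
    intro p
    unfold pd
    simp only [hg]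
    rw [fderiv_comp_sub]
  have hhc : Continuous h := hh.continuous
  have hgcont : Continuous g := hgs.continuous
  have hfd : Continuous (fun p => fderiv ℝ h p (Pi.single a 1)) :=
    (hh.continuous_fderiv (by simp)).clm_apply continuous_const
  have hgd' : Continuous (fun p => fderiv ℝ g p (Pi.single a 1)) :=
    (hgs.continuous_fderiv (by simp)).clm_apply continuous_const
  have hgdc : HasCompactSupport (fun p => fderiv ℝ g p (Pi.single a 1)) :=
    hgc.fderiv_apply (𝕜 := ℝ) _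
  have hIBP := integral_mul_fderiv_eq_neg_fderiv_mul_of_integrable (μ := (volume : Measure R3))
    (f := g) (g := h) (v := Pi.single a 1)
    ((hgd'.mul hhc).integrable_of_hasCompactSupport hgdc.mul_right)
    ((hgcont.mul hfd).integrable_of_hasCompactSupport hgc.mul_right)
    ((hgcont.mul hhc).integrable_of_hasCompactSupport hgc.mul_right)
    (fun p _ => (hgs.differentiable (by simp)) p) (fun p _ => (hh.differentiable (by simp)) p)
  have h1 : kap * pd a h y = -∫ p, pd a (et (d / 2)) (p - y) * h p := by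
    rw [← hM]
    simp only [hgd] at hIBP
    rw [← hIBP]
    refine integral_congr_ae (Eventually.of_forall fun p => ?_)
    simp only [hg]
    unfold pd
    ring
  have h2 : kap * |pd a h y| = |∫ p, pd a (et (d / 2)) (p - y) * h p| := by
    rw [← abs_neg (∫ p, pd a (et (d / 2)) (p - y) * h p), ← h1, abs_mul, abs_of_pos hPHC.2.1]
  rw [h2]
  have hint : Integrable (fun p => |pd a (et (d / 2)) (p - y)|) := by
    have h3 : Integrable (fun p => fderiv ℝ g p (Pi.single a 1)) :=
      hgd'.integrable_of_hasCompactSupport hgdc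
    simp only [hgd] at h3
    exact h3.abs
  calc |∫ p, pd a (et (d / 2)) (p - y) * h p|
      ≤ ∫ p, |pd a (et (d / 2)) (p - y) * h p| := abs_integral_le_integral_abs
    _ ≤ ∫ p, e * |pd a (et (d / 2)) (p - y)| := by
        refine integral_mono_of_nonneg (Eventually.of_forall fun p => abs_nonneg _)
          (hint.const_mul e) (Eventually.of_forall fun p => ?_)
        simp only
        rw [abs_mul]
        rcases le_or_gt (nr (p - y)) (d / 2) with h4 | h4
        · rw [mul_comm]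
          exact mul_le_mul_of_nonneg_right (hb p h4) (abs_nonneg _)
        · rw [pd_zero (d / 2) a (et (d / 2)) es (fun q hq => ez q hq) (p - y) h4.le]
          simp
    _ = e * fgz_I d a := by
        rw [integral_const_mul]
        unfold fgz_I
        rw [integral_sub_right_eq_self (μ := (volume : Measure R3))
          (fun p => |pd a (et (d / 2)) p|) y]

/-- row FGZ -/
theorem FGZ (hMVP : ST_MVP) (hPHA : ST_PHA) (hPHB : ST_PHB) (hPHC : ST_PHC) : ST_FGZ := by
  intro d hd hd1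
  have hk := hPHC.2.1
  have hI0 : 0 ≤ ∑ a, fgz_I d a := Finset.sum_nonneg fun a _ => fgz_I_nonneg d a
  refine ⟨3 * (∑ a, fgz_I d a) / kap + 1, by positivity, ?_⟩
  intro n M X Z x i e K v w y hS he hv hw hy
  have he0 : 0 ≤ e := (abs_nonneg _).trans (he 0 (X i) (by
    rw [sub_self]
    have : nr (0 : R3) = 0 := by unfold nr; simp
    rw [this]
    exact hd.le))
  have hK0 : 0 ≤ K := (abs_nonneg _).trans (hv 0)
  have hb : 0 < d / 8 := by positivity
  have hphs : ∀ m, ContDiff ℝ (⊤ : ℕ∞) (pd m (ph (d / 8))) := fun m =>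
    pd_smooth m _ (hPHA (d / 8) hb).1
  have hhs : ∀ m, ContDiff ℝ (⊤ : ℕ∞) (hh d X Z x i m) := fun m =>
    comb_smooth _ _ _ (hphs m)
  -- the bound of the derivatives
  have hbound : ∀ a m, |pd a (hh d X Z x i m) y| ≤ e * fgz_I d a / kap := by
    intro a m
    rw [le_div_iff₀ hk, mul_comm]
    refine fgz_grad hMVP hPHC d e hd (hh d X Z x i m) (hhs m) y a ?_ ?_
    · intro p hp
      have h1 : nr (p - X i) < 5 / 4 * d := by
        have := nr_tri p y (X i)
        linarith
      rw [lap_pd _ (hhs m)]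
      have hev : lap (hh d X Z x i m) =ᶠ[𝓝 p] fun _ => (0 : ℝ) := by
        have hc : Continuous fun p : R3 => nr (p - X i) :=
          nr_cont.comp (continuous_id.sub continuous_const)
        filter_upwards [hc.continuousAt.eventually (gt_mem_nhds h1)] with p' hp'
        exact hh_harm hPHA hPHB hPHC d hd X Z x hS i m p' hp'.le
      unfold pd
      rw [hev.fderiv_eq]
      simp
    · intro p hp
      have h1 : nr (p - X i) ≤ d := by
        have := nr_tri p y (X i)
        linarith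
      rw [hh_eq_farE hPHB d hd X Z x hS i m p (by linarith)]
      exact he m p h1
  -- the identity
  have hid : (∑ l, if nr (x l - X i) < 3 / 2 * d then 0 else Tq (y - x l) v w) -
      (∑ j, if j = i then 0 else Z j * Tq (y - X j) v w) =
      -∑ a, ∑ m, v a * w m * pd a (hh d X Z x i m) y := by
    have h1 : ∀ a m, pd a (hh d X Z x i m) y =
        ∑ k, cf d X Z x i k * pd a (pd m (ph (d / 8))) (y - Sum.elim x X k) := by
      intro a m
      have h2 : hh d X Z x i m = comb (pd m (ph (d / 8))) (cf d X Z x i) (Sum.elim x X) := rfl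
      rw [h2, comb_pd _ _ _ (hphs m)]
      rfl
    have h3 : ∑ a, ∑ m, v a * w m * pd a (hh d X Z x i m) y =
        ∑ k, cf d X Z x i k * ∑ a, ∑ m, v a * w m * pd a (pd m (ph (d / 8)))
          (y - Sum.elim x X k) := by
      simp only [h1, Finset.mul_sum]
      have h4 : ∀ a : Fin 3, (∑ m, ∑ k, v a * w m *
          (cf d X Z x i k * pd a (pd m (ph (d / 8))) (y - Sum.elim x X k))) =
          ∑ k, ∑ m, cf d X Z x i k * (v a * w m * pd a (pd m (ph (d / 8)))
            (y - Sum.elim x X k)) := by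
        intro a
        rw [Finset.sum_comm]
        refine Finset.sum_congr rfl fun k _ => Finset.sum_congr rfl fun m _ => ?_
        ring
      simp only [h4]
      rw [Finset.sum_comm]
    rw [h3, Fintype.sum_sum_type]
    unfold cf
    simp only [Sum.elim_inl, Sum.elim_inr]
    have h5 : ∀ l, (if nr (x l - X i) < 3 / 2 * d then (0 : ℝ) else -1) *
        ∑ a, ∑ m, v a * w m * pd a (pd m (ph (d / 8))) (y - x l) =
        -(if nr (x l - X i) < 3 / 2 * d then 0 else Tq (y - x l) v w) := by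
      intro l
      split_ifs with h
      · simp
      · have h6 := nr_tri (x l) y (X i)
        rw [fgz_Tq hPHB (d / 8) hb]
        · ring
        · rw [nr_comm y (x l)]
          linarith
    have h7 : ∀ j, (if j = i then (0 : ℝ) else Z j) *
        ∑ a, ∑ m, v a * w m * pd a (pd m (ph (d / 8))) (y - X j) =
        if j = i then 0 else Z j * Tq (y - X j) v w := by
      intro j
      split_ifs with h
      · simp
      · have h6 := nr_tri (X j) y (X i)
        have h8 := hS j i h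
        rw [fgz_Tq hPHB (d / 8) hb]
        rw [nr_comm y (X j)]
        linarith
    simp only [h5, h7]
    rw [Finset.sum_neg_distrib]
    ring
  rw [hid, abs_neg]
  calc |∑ a, ∑ m, v a * w m * pd a (hh d X Z x i m) y|
      ≤ ∑ a, ∑ m : Fin 3, K * K * (e * fgz_I d a / kap) := by
        refine (Finset.abs_sum_le_sum_abs _ _).trans (Finset.sum_le_sum fun a _ => ?_)
        refine (Finset.abs_sum_le_sum_abs _ _).trans (Finset.sum_le_sum fun m _ => ?_)
        rw [abs_mul, abs_mul]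
        exact mul_le_mul (mul_le_mul (hv a) (hw m) (abs_nonneg _) hK0) (hbound a m)
          (abs_nonneg _) (by positivity)
    _ = (3 * (∑ a, fgz_I d a) / kap) * K ^ 2 * e := by
        simp only [Finset.sum_const, Finset.card_univ, Fintype.card_fin, nsmul_eq_mul,
          Fin.sum_univ_three]
        push_cast
        ring
    _ ≤ (3 * (∑ a, fgz_I d a) / kap + 1) * K ^ 2 * e := by
        apply mul_le_mul_of_nonneg_right _ he0
        apply mul_le_mul_of_nonneg_right _ (sq_nonneg K)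
        linarith

end Pool.Agent.Helper22.HV
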